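import Mathlib

/-!
# Core and nucleus of a compact set in a complex manifold
-/

set_option autoImplicit false

open Set Filter Topology
open scoped Manifold ContDiff

namespace Q72.Nuc

/-- `ℂ^{m+1}` -/
abbrev Cm (m : ℕ) := EuclideanSpace ℂ (Fin (m + 1))

/-- the spherical cap `𝕊_r = {‖z‖ = 1, Re z₁ ≥ r}` in `ℂ^{m+1}` -/
def cap (m : ℕ) (r : ℝ) : Set (Cm m) := {z | ‖z‖ = 1 ∧ r ≤ (z 0).re}

/-- the spherical hat `{‖z‖ ≤ 1, Re z₁ ≥ r}` in `ℂ^{m+1}` -/
def hat (m : ℕ) (r : ℝ) : Set (Cm m) := {z | ‖z‖ ≤ 1 ∧ r ≤ (z 0).re}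

variable {V : Type*} [NormedAddCommGroup V] [NormedSpace ℂ V]
variable {M : Type*} [TopologicalSpace M] [ChartedSpace V M]

/-- `Φ` is an injective holomorphic map of an open neighbourhood `U` of the hat into `M`. -/
def IsHatMap (m : ℕ) (r : ℝ) (U : Set (Cm m)) (Φ : Cm m → M) : Prop :=
  IsOpen U ∧ hat m r ⊆ U ∧ InjOn Φ U ∧ MDifferentiableOn 𝓘(ℂ, Cm m) 𝓘(ℂ, V) Φ U

/-- `K''` arises from `K'` by a spherical cut. -/
def IsCut (m : ℕ) (K' K'' : Set M) : Prop :=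
  IsCompact K' ∧ IsCompact K'' ∧ ∃ r : ℝ, 0 < r ∧ r < 1 ∧ ∃ (U : Set (Cm m)) (Φ : Cm m → M),
    IsHatMap (V := V) m r U Φ ∧ Φ '' cap m r ∩ K' = ∅ ∧ K'' = K' \ Φ '' interior (hat m r)

variable (V) in
/-- the nucleus: the intersection of all compact sets obtained from `K` by a finite chain of
spherical cuts (`m + 1` is the dimension of `M`) -/
def nucleus (m : ℕ) (K : Set M) : Set M :=
  ⋂₀ {K' | IsCompact K' ∧ Relation.ReflTransGen (IsCut (V := V) m) K K'}

/-- the Levi form `∑ u_{j k̄} ξ_j ξ̄_k` of a smooth function `u`: a quarter of the sum of the second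
derivatives in the real directions `ξ` and `i ξ` -/
noncomputable def levi (u : V → ℝ) (z ξ : V) : ℝ :=
  (deriv (deriv (fun t : ℝ => u (z + (t : ℂ) • ξ))) 0 +
    deriv (deriv (fun t : ℝ => u (z + (t : ℂ) • (Complex.I • ξ)))) 0) / 4

variable (V) in
/-- `φ` is smooth at `x` and its Levi form at `x` is nonnegative (in the chart at `x`) -/
def PSHAt (φ : M → ℝ) (x : M) : Prop :=
  ContDiffAt ℝ ∞ (φ ∘ (chartAt V x).symm) (chartAt V x x) ∧
    ∀ ξ : V, 0 ≤ levi (φ ∘ (chartAt V x).symm) (chartAt V x x) ξ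

variable (V) in
/-- the Levi form of `φ` at `x` is positive definite (in the chart at `x`) -/
def StrictAt (φ : M → ℝ) (x : M) : Prop :=
  ∀ ξ : V, ξ ≠ 0 → 0 < levi (φ ∘ (chartAt V x).symm) (chartAt V x x) ξ

variable (V) in
/-- the core of a compact set `K`: the points `ζ ∈ K` such that no function which is smooth and
plurisubharmonic on a neighbourhood of `K` is strictly plurisubharmonic at `ζ` -/
def core (K : Set M) : Set M :=
  {ζ | ζ ∈ K ∧ ¬ ∃ (N : Set M) (φ : M → ℝ), IsOpen N ∧ K ⊆ N ∧ (∀ x ∈ N, PSHAt V φ x) ∧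
    StrictAt V φ ζ}

end Q72.Nuc
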