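import Mathlib
import Pool.Agent.H194R3.Cartan.P1
import Pool.Agent.Q72.Nuc.Defs

/-!
# The manifold `ℙ¹ × ℂ`, the compact set `K` and the function `φ`
-/

set_option autoImplicit false

open Set Filter Topology
open scoped Manifold ContDiff

namespace Q72.Nuc

open Pool.Agent.H194R3.Cartan

/-- the complex manifold `ℙ¹ × ℂ` -/
def MM : Type := P1 × ℂ

noncomputable instance : TopologicalSpace MM := inferInstanceAs (TopologicalSpace (P1 × ℂ))
instance : T2Space MM := inferInstanceAs (T2Space (P1 × ℂ))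
noncomputable instance : ChartedSpace (ℂ × ℂ) MM :=
  inferInstanceAs (ChartedSpace (ModelProd ℂ ℂ) (P1 × ℂ))

instance : IsManifold 𝓘(ℂ, ℂ × ℂ) ω MM := by
  rw [modelWithCornersSelf_prod]
  exact inferInstanceAs (IsManifold (𝓘(ℂ, ℂ).prod 𝓘(ℂ, ℂ)) ω (P1 × ℂ))

instance : SigmaCompactSpace MM := inferInstanceAs (SigmaCompactSpace (P1 × ℂ))
instance : SecondCountableTopology MM := ChartedSpace.secondCountable_of_sigmaCompact (ℂ × ℂ) MM

/-- the first coordinate -/
def px (q : MM) : P1 := q.1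
/-- the second coordinate -/
def pv (q : MM) : ℂ := q.2

lemma continuous_px : Continuous px := continuous_fst (X := P1) (Y := ℂ)
lemma continuous_pv : Continuous pv := continuous_snd (X := P1) (Y := ℂ)

lemma chartAt_eq (q : MM) : chartAt (ℂ × ℂ) q =
    (chartAt ℂ (px q)).prod (OpenPartialHomeomorph.refl ℂ) := rfl

lemma mdiff_px (q : MM) : MDifferentiableAt 𝓘(ℂ, ℂ × ℂ) 𝓘(ℂ, ℂ) px q := by
  rw [modelWithCornersSelf_prod]
  exact mdifferentiableAt_fst (I := 𝓘(ℂ, ℂ)) (I' := 𝓘(ℂ, ℂ)) (M := P1) (M' := ℂ)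

lemma mdiff_pv (q : MM) : MDifferentiableAt 𝓘(ℂ, ℂ × ℂ) 𝓘(ℂ, ℂ) pv q := by
  rw [modelWithCornersSelf_prod]
  exact mdifferentiableAt_snd (I := 𝓘(ℂ, ℂ)) (I' := 𝓘(ℂ, ℂ)) (M := P1) (M' := ℂ)

/-- the compact set: a closed disc attached to `ℙ¹ × S¹` -/
def KK : Set MM := {q | ‖pv q‖ = 1 ∨ (px q = P1.coe 0 ∧ ‖pv q‖ ≤ 1)}

lemma isClosed_KK : IsClosed KK := by
  apply IsClosed.union
  · exact isClosed_eq continuous_pv.norm continuous_const
  · exact (isClosed_eq continuous_px continuous_const).inter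
      (isClosed_le continuous_pv.norm continuous_const)

lemma isCompact_slab : IsCompact {q : MM | ‖pv q‖ ≤ 1} := by
  have h1 : IsCompact ((univ : Set P1) ×ˢ Metric.closedBall (0 : ℂ) 1) :=
    isCompact_univ.prod (isCompact_closedBall 0 1)
  have h2 : {q : MM | ‖pv q‖ ≤ 1} = (univ : Set P1) ×ˢ Metric.closedBall (0 : ℂ) 1 := by
    ext q
    constructor
    · intro h
      exact ⟨mem_univ _, by rw [mem_closedBall_zero_iff]; exact h⟩
    · rintro ⟨_, h⟩
      rw [mem_closedBall_zero_iff] at h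
      exact h
  rw [h2]
  exact h1

lemma isCompact_KK : IsCompact KK := by
  apply isCompact_slab.of_isClosed_subset isClosed_KK
  rintro q (h | h)
  · exact h.le
  · exact h.2

end Q72.Nuc
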