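import Mathlib
import Pool.Agent.Q72.Nuc.Mfd

/-!
# `KK` is 1-pseudoconcave: spherical cuts do not change it
-/

set_option autoImplicit false

open Set Filter Topology Metric
open scoped Manifold ContDiff

namespace Q72.Nuc

open Pool.Agent.H194R3.Cartan

/-- the point `(a, b)` of `ℂ²` -/
noncomputable def pt (a b : ℂ) : Cm 1 := !₂[a, b]

@[simp] lemma pt_zero (a b : ℂ) : pt a b 0 = a := rfl
@[simp] lemma pt_one (a b : ℂ) : pt a b 1 = b := rfl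

lemma norm_pt_sq (a b : ℂ) : ‖pt a b‖ ^ 2 = ‖a‖ ^ 2 + ‖b‖ ^ 2 := by
  rw [EuclideanSpace.norm_sq_eq, Fin.sum_univ_two]
  rfl

lemma norm_pt_le_one {a b : ℂ} : ‖pt a b‖ ≤ 1 ↔ ‖a‖ ^ 2 + ‖b‖ ^ 2 ≤ 1 := by
  rw [← norm_pt_sq]
  constructor
  · intro h; nlinarith [norm_nonneg (pt a b)]
  · intro h; nlinarith [norm_nonneg (pt a b)]

lemma norm_pt_eq_one {a b : ℂ} : ‖pt a b‖ = 1 ↔ ‖a‖ ^ 2 + ‖b‖ ^ 2 = 1 := by
  rw [← norm_pt_sq]
  constructor
  · intro h; rw [h]; norm_num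
  · intro h; nlinarith [norm_nonneg (pt a b)]

lemma continuous_pt : Continuous (fun p : ℂ × ℂ => pt p.1 p.2) := by
  unfold pt
  refine (PiLp.continuous_toLp 2 _).comp ?_
  refine continuous_pi fun i => ?_
  fin_cases i
  · exact continuous_fst
  · exact continuous_snd

lemma eq_pt (q : Cm 1) : q = pt (q 0) (q 1) := by
  ext i
  fin_cases i <;> rfl

lemma differentiable_pt (a : ℂ) : Differentiable ℂ (fun b : ℂ => pt a b) := by
  intro b
  rw [differentiableAt_euclidean]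
  intro i
  fin_cases i
  · exact differentiableAt_const _
  · exact differentiableAt_id

/-- the segment from `a` to `1` -/
noncomputable def ln (a : ℂ) (s : ℝ) : ℂ := a + (s : ℂ) * (1 - a)

lemma continuous_ln (a : ℂ) : Continuous (ln a) := by unfold ln; fun_prop

/-- **Kontinuitätssatz**, one-parameter form -/
theorem bounded_of_boundary {O : Set (Cm 1)} (hO : IsOpen O) {H : Cm 1 → ℂ}
    (hH : DifferentiableOn ℂ H O) {a b : ℂ} {s0 s1 : ℝ} (h01 : s0 < s1)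
    (hb : ‖ln a s0‖ ^ 2 + ‖b‖ ^ 2 < 1)
    (hbd : ∀ b', ‖ln a s0‖ ^ 2 + ‖b'‖ ^ 2 = 1 → pt (ln a s0) b' ∈ O)
    (hin : ∀ s, s0 < s → s ≤ s1 → ∀ b', ‖ln a s‖ ^ 2 + ‖b'‖ ^ 2 ≤ 1 → pt (ln a s) b' ∈ O) :
    ∃ Y : ℝ, ∀ᶠ s in 𝓝[>] s0, ‖H (pt (ln a s) b)‖ ≤ Y := by
  -- bound on the boundary circle
  have hC0 : IsCompact {b' : ℂ | ‖ln a s0‖ ^ 2 + ‖b'‖ ^ 2 = 1} := by
    apply Metric.isCompact_of_isClosed_isBounded
    · exact isClosed_eq (by fun_prop) continuous_const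
    · apply (isBounded_closedBall (x := (0 : ℂ)) (r := 1)).subset
      intro b' hb'
      have h1 : ‖ln a s0‖ ^ 2 + ‖b'‖ ^ 2 = 1 := hb'
      rw [mem_closedBall_zero_iff]
      nlinarith [norm_nonneg b', sq_nonneg ‖ln a s0‖]
  have hcont0 : ContinuousOn (fun b' => H (pt (ln a s0) b'))
      {b' : ℂ | ‖ln a s0‖ ^ 2 + ‖b'‖ ^ 2 = 1} :=
    hH.continuousOn.comp (differentiable_pt _).continuous.continuousOn (fun b' hb' => hbd b' hb')
  obtain ⟨Y, hY⟩ := hC0.exists_bound_of_continuousOn hcont0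
  have hO' : IsOpen (O ∩ {q | ‖H q‖ < Y + 1}) :=
    hH.continuousOn.norm.isOpen_inter_preimage hO isOpen_Iio
  -- the bad set
  have hbad : IsCompact {p : ℝ × ℂ | p.1 ∈ Icc s0 s1 ∧ ‖ln a p.1‖ ^ 2 + ‖p.2‖ ^ 2 = 1 ∧
      pt (ln a p.1) p.2 ∉ O ∩ {q | ‖H q‖ < Y + 1}} := by
    apply Metric.isCompact_of_isClosed_isBounded
    · have hc1 : Continuous (fun p : ℝ × ℂ => pt (ln a p.1) p.2) :=
        continuous_pt.comp (((continuous_ln a).comp continuous_fst).prodMk continuous_snd)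
      have hc2 : Continuous (fun p : ℝ × ℂ => ‖ln a p.1‖ ^ 2 + ‖p.2‖ ^ 2) := by
        have := (continuous_ln a).comp (continuous_fst (X := ℝ) (Y := ℂ))
        exact (this.norm.pow 2).add (continuous_snd.norm.pow 2)
      exact (isClosed_Icc.preimage continuous_fst).inter
        ((isClosed_eq hc2 continuous_const).inter (hO'.isClosed_compl.preimage hc1))
    · apply ((isBounded_Icc s0 s1).prod (isBounded_closedBall (x := (0 : ℂ)) (r := 1))).subset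
      intro p hp
      refine ⟨hp.1, ?_⟩
      rw [mem_closedBall_zero_iff]
      have h1 := hp.2.1
      nlinarith [norm_nonneg p.2, sq_nonneg ‖ln a p.1‖]
  have himg := (hbad.image continuous_fst).isClosed
  have hs0 : s0 ∉ Prod.fst '' {p : ℝ × ℂ | p.1 ∈ Icc s0 s1 ∧ ‖ln a p.1‖ ^ 2 + ‖p.2‖ ^ 2 = 1 ∧
      pt (ln a p.1) p.2 ∉ O ∩ {q | ‖H q‖ < Y + 1}} := by
    rintro ⟨⟨s, b'⟩, hp, hps⟩
    have hps' : s = s0 := hps
    subst hps'
    have h1 := hp.2.1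
    apply hp.2.2
    refine ⟨hbd b' h1, ?_⟩
    have := hY b' h1
    change ‖H (pt (ln a s) b')‖ < Y + 1
    linarith
  have hev1 := himg.isOpen_compl.mem_nhds hs0
  have hev2 : ∀ᶠ s in 𝓝 s0, ‖ln a s‖ ^ 2 + ‖b‖ ^ 2 < 1 := by
    have hc : Continuous (fun s => ‖ln a s‖ ^ 2 + ‖b‖ ^ 2) :=
      ((continuous_ln a).norm.pow 2).add continuous_const
    exact hc.continuousAt.eventually (gt_mem_nhds hb)
  refine ⟨Y + 1, ?_⟩
  filter_upwards [nhdsWithin_le_nhds hev1, nhdsWithin_le_nhds hev2,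
    nhdsWithin_le_nhds (gt_mem_nhds h01), self_mem_nhdsWithin] with s hs1 hs2 hs3 hs4
  have hs4' : s0 < s := hs4
  obtain ⟨R, hR⟩ : ∃ R : ℝ, R = √(1 - ‖ln a s‖ ^ 2) := ⟨_, rfl⟩
  have hR2 : R ^ 2 = 1 - ‖ln a s‖ ^ 2 := by
    rw [hR]; apply Real.sq_sqrt; nlinarith [sq_nonneg ‖b‖]
  have hR0 : 0 ≤ R := by rw [hR]; exact Real.sqrt_nonneg _
  have hbR : ‖b‖ < R := by nlinarith [norm_nonneg b]
  have hRpos : 0 < R := lt_of_le_of_lt (norm_nonneg b) hbR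
  have hmem : ∀ b', ‖b'‖ ≤ R → pt (ln a s) b' ∈ O := by
    intro b' hb'
    apply hin s hs4' hs3.le
    have : ‖b'‖ ^ 2 ≤ R ^ 2 := by gcongr
    linarith
  have hdiff : ∀ b', ‖b'‖ ≤ R → DifferentiableAt ℂ (fun b' => H (pt (ln a s) b')) b' := by
    intro b' hb'
    exact ((hH _ (hmem b' hb')).differentiableAt (hO.mem_nhds (hmem b' hb'))).comp b'
      (differentiable_pt _ b')
  have hdc : DiffContOnCl ℂ (fun b' => H (pt (ln a s) b')) (ball 0 R) := by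
    refine ⟨fun b' hb' => (hdiff b' (by simpa using (mem_ball_zero_iff.1 hb').le)
      ).differentiableWithinAt, fun b' hb' => ?_⟩
    rw [closure_ball (0 : ℂ) hRpos.ne'] at hb'
    exact (hdiff b' (by simpa using hb')).continuousAt.continuousWithinAt
  apply Complex.norm_le_of_forall_mem_frontier_norm_le isBounded_ball hdc _
    (subset_closure (mem_ball_zero_iff.2 hbR))
  intro b' hb'
  rw [frontier_ball (0 : ℂ) hRpos.ne', mem_sphere_zero_iff_norm] at hb'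
  by_contra hc
  apply hs1
  refine ⟨(s, b'), ⟨⟨hs4'.le, hs3.le⟩, ?_, ?_⟩, rfl⟩
  · change ‖ln a s‖ ^ 2 + ‖b'‖ ^ 2 = 1
    rw [hb', hR2]; ring
  · rintro ⟨_, h2⟩
    exact hc (le_of_lt h2)

lemma mdiff_of_hat {r : ℝ} {U : Set (Cm 1)} {Φ : Cm 1 → MM} (h : IsHatMap (V := ℂ × ℂ) 1 r U Φ)
    {q : Cm 1} (hq : q ∈ U) : MDifferentiableAt 𝓘(ℂ, Cm 1) 𝓘(ℂ, ℂ × ℂ) Φ q :=
  (h.2.2.2 q hq).mdifferentiableAt (h.1.mem_nhds hq)

lemma diff_v {r : ℝ} {U : Set (Cm 1)} {Φ : Cm 1 → MM} (h : IsHatMap (V := ℂ × ℂ) 1 r U Φ)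
    {q : Cm 1} (hq : q ∈ U) : DifferentiableAt ℂ (fun q => pv (Φ q)) q := by
  have h1 := (mdiff_pv (Φ q)).comp q (mdiff_of_hat h hq)
  exact h1.differentiableAt

lemma diff_x {r : ℝ} {U : Set (Cm 1)} {Φ : Cm 1 → MM} (h : IsHatMap (V := ℂ × ℂ) 1 r U Φ)
    {q : Cm 1} (hq : q ∈ U) (hx : px (Φ q) ≠ P1.coe 0) :
    DifferentiableAt ℂ (fun q => P1.chartInf (px (Φ q))) q := by
  have h1 := (mdiff_px (Φ q)).comp q (mdiff_of_hat h hq)
  have h2 : px (Φ q) ∈ P1.chartInf.source := by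
    rw [P1.mem_chartInf_source]
    rcases P1.cases (P1.inversion (px (Φ q))) with h3 | ⟨z, h3⟩
    · exfalso
      apply hx
      rw [← P1.inversion_inversion (px (Φ q)), h3, P1.inversion_inf]
    · exact ⟨z, h3.symm⟩
  have h3 : MDifferentiableAt 𝓘(ℂ, ℂ) 𝓘(ℂ, ℂ) P1.chartInf (px (Φ q)) :=
    mdifferentiableAt_atlas (I := 𝓘(ℂ, ℂ)) (M := P1) (e := P1.chartInf) (by
      change P1.chartInf ∈ ({P1.chartZero, P1.chartInf} : Set _)
      simp) h2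
  have h4 := h3.comp q h1
  exact h4.differentiableAt

end Q72.Nuc
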