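import Mathlib
import Pool.Agent.Q72.Nuc.Mfd

/-!
# The plurisubharmonic function near `KK`
-/

set_option autoImplicit false

open Set Filter Topology Metric
open scoped Manifold ContDiff

namespace Q72.Nuc

open Pool.Agent.H194R3.Cartan

/-- the cutoff function -/
noncomputable def bump : ContDiffBump (0 : ℂ) := ⟨1 / 2, 7 / 10, by norm_num, by norm_num⟩

noncomputable def psi (v : ℂ) : ℝ := bump v

lemma contDiff_psi : ContDiff ℝ ∞ psi := bump.contDiff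

lemma psi_nonneg (v : ℂ) : 0 ≤ psi v := bump.nonneg
lemma psi_le_one (v : ℂ) : psi v ≤ 1 := bump.le_one
lemma psi_zero : psi 0 = 1 := by
  apply bump.one_of_mem_closedBall
  simp [bump]
lemma psi_eq_zero {v : ℂ} (hv : 7 / 10 ≤ ‖v‖) : psi v = 0 := by
  apply bump.zero_of_le_dist
  rw [dist_zero_right]
  exact hv

lemma hcs_fderiv {F : Type*} [NormedAddCommGroup F] [NormedSpace ℝ F] {f : ℂ → F}
    (hs : HasCompactSupport f) : HasCompactSupport (fderiv ℝ f) := hs.fderiv ℝ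

lemma bdd_of_hcs {F : Type*} [NormedAddCommGroup F] [NormedSpace ℝ F] {f : ℂ → F}
    (hf : Continuous f) (hs : HasCompactSupport f) : ∃ C, ∀ v, ‖f v‖ ≤ C :=
  hf.bounded_above_of_compact_support hs

lemma exists_bounds_aux {f : ℂ → ℝ} (hf : ContDiff ℝ ∞ f) (hs : HasCompactSupport f) :
    ∃ C1 C2 : ℝ, (∀ v, ‖fderiv ℝ f v‖ ≤ C1) ∧ ∀ v, ‖fderiv ℝ (fderiv ℝ f) v‖ ≤ C2 := by
  have h1 : ContDiff ℝ ∞ (fderiv ℝ f) := hf.fderiv_right (m := ∞) (by simp)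
  have h2 : ContDiff ℝ ∞ (fderiv ℝ (fderiv ℝ f)) := h1.fderiv_right (m := ∞) (by simp)
  have h3 := hcs_fderiv hs
  have h4 := hcs_fderiv h3
  obtain ⟨C1, hC1⟩ := bdd_of_hcs h1.continuous h3
  obtain ⟨C2, hC2⟩ := bdd_of_hcs h2.continuous h4
  exact ⟨C1, C2, hC1, hC2⟩

lemma exists_bounds : ∃ C1 C2 : ℝ, (∀ v, ‖fderiv ℝ psi v‖ ≤ C1) ∧
    ∀ v, ‖fderiv ℝ (fderiv ℝ psi) v‖ ≤ C2 :=
  exists_bounds_aux contDiff_psi bump.hasCompactSupport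

/-- the model function -/
noncomputable def FF (ε : ℝ) (p : ℂ × ℂ) : ℝ := ‖p.2‖ ^ 2 + ε * (‖p.1‖ ^ 2 * psi p.2 ^ 2)

lemma contDiff_FF (ε : ℝ) : ContDiff ℝ ∞ (FF ε) := by
  unfold FF
  have h1 : ContDiff ℝ ∞ (fun p : ℂ × ℂ => psi p.2) := contDiff_psi.comp contDiff_snd
  have h2 : ContDiff ℝ ∞ (fun p : ℂ × ℂ => ‖p.1‖ ^ 2) := contDiff_fst.norm_sq ℝ
  have h3 : ContDiff ℝ ∞ (fun p : ℂ × ℂ => ‖p.2‖ ^ 2) := contDiff_snd.norm_sq ℝ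
  exact h3.add (contDiff_const.mul (h2.mul (h1.pow 2)))

lemma norm_sq_line (z a : ℂ) (t : ℝ) :
    ‖z + (t : ℂ) * a‖ ^ 2 = ‖z‖ ^ 2 + 2 * (z.re * a.re + z.im * a.im) * t + ‖a‖ ^ 2 * t ^ 2 := by
  rw [← Complex.normSq_eq_norm_sq, ← Complex.normSq_eq_norm_sq, ← Complex.normSq_eq_norm_sq,
    Complex.normSq_apply, Complex.normSq_apply, Complex.normSq_apply]
  simp
  ring

/-- the second derivative along a real line -/
lemma deriv2 (ε : ℝ) (z v a b : ℂ) :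
    deriv (deriv (fun t : ℝ => FF ε ((z, v) + (t : ℂ) • (a, b)))) 0 =
      2 * ‖b‖ ^ 2 + ε * (2 * ‖a‖ ^ 2 * psi v ^ 2 +
        8 * (z.re * a.re + z.im * a.im) * (psi v * fderiv ℝ psi v b) +
        2 * ‖z‖ ^ 2 * ((fderiv ℝ psi v b) ^ 2 +
          psi v * fderiv ℝ (fderiv ℝ psi) v b b)) := by
  have hψ : Differentiable ℝ psi := contDiff_psi.differentiable (by simp)
  have hψ' : Differentiable ℝ (fderiv ℝ psi) :=
    (contDiff_psi.fderiv_right (m := ∞) (by simp)).differentiable (by simp)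
  have hline : ∀ t : ℝ, HasDerivAt (fun t : ℝ => v + (t : ℂ) * b) b t := by
    intro t
    have h1 : HasDerivAt (fun t : ℝ => (t : ℂ)) 1 t := Complex.ofRealCLM.hasDerivAt
    simpa using (h1.mul_const b).const_add v
  have hu : ∀ t : ℝ, HasDerivAt (fun t : ℝ => psi (v + (t : ℂ) * b))
      (fderiv ℝ psi (v + (t : ℂ) * b) b) t := by
    intro t
    exact (hψ (v + (t : ℂ) * b)).hasFDerivAt.comp_hasDerivAt t (hline t)
  have hu1 : HasDerivAt (fun t : ℝ => fderiv ℝ psi (v + (t : ℂ) * b) b)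
      (fderiv ℝ (fderiv ℝ psi) v b b) 0 := by
    have h1 : HasFDerivAt (fderiv ℝ psi) (fderiv ℝ (fderiv ℝ psi) v) (v + ((0 : ℝ) : ℂ) * b) := by
      have := (hψ' v).hasFDerivAt
      simpa using this
    have h2 := h1.comp_hasDerivAt (0 : ℝ) (hline 0)
    have h3 := h2.clm_apply (hasDerivAt_const (0 : ℝ) b)
    simpa using h3
  have hA : ∀ (x y : ℝ) (w : ℝ) (t : ℝ), HasDerivAt (fun t : ℝ => w + 2 * x * t + y * t ^ 2)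
      (2 * x + 2 * y * t) t := by
    intro x y w t
    have h1 : HasDerivAt (fun t : ℝ => 2 * x * t) (2 * x) t := by
      simpa using (hasDerivAt_id t).const_mul (2 * x)
    have h2 : HasDerivAt (fun t : ℝ => y * t ^ 2) (2 * y * t) t := by
      have := (hasDerivAt_pow 2 t).const_mul y
      have e : y * (((2 : ℕ) : ℝ) * t ^ (2 - 1)) = 2 * y * t := by push_cast; ring
      rw [e] at this
      exact this
    exact (h1.const_add w).add h2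
  obtain ⟨p, hp⟩ : ∃ p : ℝ, p = z.re * a.re + z.im * a.im := ⟨_, rfl⟩
  obtain ⟨q, hq⟩ : ∃ q : ℝ, q = v.re * b.re + v.im * b.im := ⟨_, rfl⟩
  have hf : (fun t : ℝ => FF ε ((z, v) + (t : ℂ) • (a, b))) = fun t : ℝ =>
      (‖v‖ ^ 2 + 2 * q * t + ‖b‖ ^ 2 * t ^ 2) + ε * ((‖z‖ ^ 2 + 2 * p * t + ‖a‖ ^ 2 * t ^ 2) *
        (psi (v + (t : ℂ) * b)) ^ 2) := by
    ext t
    unfold FF
    have e1 : ((z, v) + (t : ℂ) • (a, b) : ℂ × ℂ).1 = z + (t : ℂ) * a := rfl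
    have e2 : ((z, v) + (t : ℂ) • (a, b) : ℂ × ℂ).2 = v + (t : ℂ) * b := rfl
    rw [e1, e2, norm_sq_line, norm_sq_line, hp, hq]
  have hd1 : deriv (fun t : ℝ => FF ε ((z, v) + (t : ℂ) • (a, b))) = fun t : ℝ =>
      (2 * q + 2 * ‖b‖ ^ 2 * t) + ε * ((2 * p + 2 * ‖a‖ ^ 2 * t) * (psi (v + (t : ℂ) * b)) ^ 2 +
        (‖z‖ ^ 2 + 2 * p * t + ‖a‖ ^ 2 * t ^ 2) * (2 * psi (v + (t : ℂ) * b) *
          fderiv ℝ psi (v + (t : ℂ) * b) b)) := by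
    ext t
    rw [hf]
    have h1 := hA q (‖b‖ ^ 2) (‖v‖ ^ 2) t
    have h2 := hA p (‖a‖ ^ 2) (‖z‖ ^ 2) t
    have h3 := (hu t).pow 2
    have h4 := h1.add ((h2.mul h3).const_mul ε)
    have h5 := h4.deriv
    refine Eq.trans ?_ (h5.trans ?_)
    · rfl
    · simp
  rw [hd1]
  have h1 : HasDerivAt (fun t : ℝ => 2 * q + 2 * ‖b‖ ^ 2 * t) (2 * ‖b‖ ^ 2) 0 := by
    simpa using ((hasDerivAt_id (0 : ℝ)).const_mul (2 * ‖b‖ ^ 2)).const_add (2 * q)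
  have h2 : HasDerivAt (fun t : ℝ => 2 * p + 2 * ‖a‖ ^ 2 * t) (2 * ‖a‖ ^ 2) 0 := by
    simpa using ((hasDerivAt_id (0 : ℝ)).const_mul (2 * ‖a‖ ^ 2)).const_add (2 * p)
  have h3 := (hu 0).pow 2
  have h4 := hA p (‖a‖ ^ 2) (‖z‖ ^ 2) 0
  have h5 := ((hu 0).const_mul 2).mul hu1
  have h6 := h1.add (((h2.mul h3).add (h4.mul h5)).const_mul ε)
  refine Eq.trans ?_ (h6.deriv.trans ?_)
  · rfl
  · simp [-mul_eq_mul_left_iff]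
    rw [hp]
    ring

/-- the Levi form -/
lemma levi_FF (ε : ℝ) (z v a b : ℂ) :
    4 * levi (FF ε) (z, v) (a, b) = 4 * ‖b‖ ^ 2 + ε * (4 * ‖a‖ ^ 2 * psi v ^ 2 +
      8 * psi v * ((z.re * a.re + z.im * a.im) * fderiv ℝ psi v b +
        (z.im * a.re - z.re * a.im) * fderiv ℝ psi v (Complex.I * b)) +
      2 * ‖z‖ ^ 2 * ((fderiv ℝ psi v b) ^ 2 + (fderiv ℝ psi v (Complex.I * b)) ^ 2 +
        psi v * (fderiv ℝ (fderiv ℝ psi) v b b +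
          fderiv ℝ (fderiv ℝ psi) v (Complex.I * b) (Complex.I * b)))) := by
  unfold levi
  have e : Complex.I • ((a, b) : ℂ × ℂ) = (Complex.I * a, Complex.I * b) := rfl
  rw [e, deriv2, deriv2]
  have h1 : ‖Complex.I * a‖ = ‖a‖ := by simp
  have h2 : ‖Complex.I * b‖ = ‖b‖ := by simp
  rw [h1, h2]
  simp only [Complex.mul_re, Complex.mul_im, Complex.I_re, Complex.I_im]
  ring

theorem levi_nonneg {C1 C2 : ℝ} (hC1 : ∀ v, ‖fderiv ℝ psi v‖ ≤ C1)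
    (hC2 : ∀ v, ‖fderiv ℝ (fderiv ℝ psi) v‖ ≤ C2) {ε : ℝ} (hε : 0 ≤ ε)
    (hε1 : ε * (C1 ^ 2 + C2) ≤ 1) {z : ℂ} (hz : ‖z‖ ≤ 1) (v a b : ℂ) :
    0 ≤ levi (FF ε) (z, v) (a, b) := by
  have h := levi_FF ε z v a b
  obtain ⟨m1, hm1⟩ : ∃ m1, m1 = fderiv ℝ psi v b := ⟨_, rfl⟩
  obtain ⟨m2, hm2⟩ : ∃ m2, m2 = fderiv ℝ psi v (Complex.I * b) := ⟨_, rfl⟩
  obtain ⟨k1, hk1⟩ : ∃ k1, k1 = fderiv ℝ (fderiv ℝ psi) v b b := ⟨_, rfl⟩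
  obtain ⟨k2, hk2⟩ : ∃ k2, k2 = fderiv ℝ (fderiv ℝ psi) v (Complex.I * b) (Complex.I * b) :=
    ⟨_, rfl⟩
  rw [← hm1, ← hm2, ← hk1, ← hk2] at h
  have hIb : ‖Complex.I * b‖ = ‖b‖ := by simp
  have hC10 : 0 ≤ C1 := (norm_nonneg _).trans (hC1 0)
  have hC20 : 0 ≤ C2 := le_trans (norm_nonneg (fderiv ℝ (fderiv ℝ psi) 0)) (hC2 0)
  have hm1b : |m1| ≤ C1 * ‖b‖ := by
    rw [hm1, ← Real.norm_eq_abs]
    exact ((fderiv ℝ psi v).le_opNorm b).trans (by gcongr; exact hC1 v)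
  have hm2b : |m2| ≤ C1 * ‖b‖ := by
    rw [hm2, ← Real.norm_eq_abs, ← hIb]
    exact ((fderiv ℝ psi v).le_opNorm _).trans (by gcongr; exact hC1 v)
  have hk1b : |k1| ≤ C2 * ‖b‖ ^ 2 := by
    rw [hk1, ← Real.norm_eq_abs]
    calc _ ≤ ‖fderiv ℝ (fderiv ℝ psi) v‖ * ‖b‖ * ‖b‖ := ContinuousLinearMap.le_opNorm₂ _ _ _
      _ ≤ C2 * ‖b‖ * ‖b‖ := by gcongr; exact hC2 v
      _ = _ := by ring
  have hk2b : |k2| ≤ C2 * ‖b‖ ^ 2 := by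
    rw [hk2, ← Real.norm_eq_abs]
    calc _ ≤ ‖fderiv ℝ (fderiv ℝ psi) v‖ * ‖Complex.I * b‖ * ‖Complex.I * b‖ :=
          ContinuousLinearMap.le_opNorm₂ _ _ _
      _ ≤ C2 * ‖Complex.I * b‖ * ‖Complex.I * b‖ := by gcongr; exact hC2 v
      _ = _ := by rw [hIb]; ring
  have hm1s : m1 ^ 2 ≤ C1 ^ 2 * ‖b‖ ^ 2 := by
    rw [← sq_abs, ← mul_pow]; gcongr
  have hm2s : m2 ^ 2 ≤ C1 ^ 2 * ‖b‖ ^ 2 := by
    rw [← sq_abs, ← mul_pow]; gcongr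
  -- the square
  have hsq : 0 ≤ ‖a‖ ^ 2 * psi v ^ 2 + 2 * psi v * ((z.re * a.re + z.im * a.im) * m1 +
      (z.im * a.re - z.re * a.im) * m2) + ‖z‖ ^ 2 * (m1 ^ 2 + m2 ^ 2) := by
    have e : ‖a‖ ^ 2 * psi v ^ 2 + 2 * psi v * ((z.re * a.re + z.im * a.im) * m1 +
      (z.im * a.re - z.re * a.im) * m2) + ‖z‖ ^ 2 * (m1 ^ 2 + m2 ^ 2) =
      ‖a * psi v + z * (⟨m1, -m2⟩ : ℂ)‖ ^ 2 := by
      rw [← Complex.normSq_eq_norm_sq, ← Complex.normSq_eq_norm_sq, ← Complex.normSq_eq_norm_sq,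
        Complex.normSq_apply, Complex.normSq_apply, Complex.normSq_apply]
      simp
      ring
    rw [e]; positivity
  have hψ0 := psi_nonneg v
  have hψ1 := psi_le_one v
  have hz2 : ‖z‖ ^ 2 ≤ 1 := by
    have := norm_nonneg z
    nlinarith
  have hz0 : 0 ≤ ‖z‖ ^ 2 := sq_nonneg _
  have hk : |psi v * (k1 + k2)| ≤ 2 * C2 * ‖b‖ ^ 2 := by
    rw [abs_mul, abs_of_nonneg hψ0]
    calc psi v * |k1 + k2| ≤ 1 * (|k1| + |k2|) := by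
          gcongr
          exact abs_add_le _ _
      _ ≤ _ := by linarith
  have hk' := (abs_le.1 hk).1
  have hb0 : 0 ≤ ‖b‖ ^ 2 := sq_nonneg _
  have hlow : -(4 * (C1 ^ 2 + C2) * ‖b‖ ^ 2) ≤ 4 * ‖a‖ ^ 2 * psi v ^ 2 +
      8 * psi v * ((z.re * a.re + z.im * a.im) * m1 + (z.im * a.re - z.re * a.im) * m2) +
      2 * ‖z‖ ^ 2 * (m1 ^ 2 + m2 ^ 2 + psi v * (k1 + k2)) := by
    have h1 : -(4 * (C1 ^ 2 + C2) * ‖b‖ ^ 2) ≤
        2 * ‖z‖ ^ 2 * (-(m1 ^ 2 + m2 ^ 2) + psi v * (k1 + k2)) := by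
      have h2 : -(2 * (C1 ^ 2 + C2) * ‖b‖ ^ 2) ≤ -(m1 ^ 2 + m2 ^ 2) + psi v * (k1 + k2) := by
        nlinarith
      have h3 : 0 ≤ 2 * (C1 ^ 2 + C2) * ‖b‖ ^ 2 := by positivity
      calc -(4 * (C1 ^ 2 + C2) * ‖b‖ ^ 2) = 2 * 1 * (-(2 * (C1 ^ 2 + C2) * ‖b‖ ^ 2)) := by ring
        _ ≤ 2 * ‖z‖ ^ 2 * (-(2 * (C1 ^ 2 + C2) * ‖b‖ ^ 2)) := by nlinarith
        _ ≤ _ := by gcongr
    nlinarith
  have hfin : 0 ≤ 4 * levi (FF ε) (z, v) (a, b) := by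
    rw [h]
    have h1 : ε * (-(4 * (C1 ^ 2 + C2) * ‖b‖ ^ 2)) ≤ ε * (4 * ‖a‖ ^ 2 * psi v ^ 2 +
      8 * psi v * ((z.re * a.re + z.im * a.im) * m1 + (z.im * a.re - z.re * a.im) * m2) +
      2 * ‖z‖ ^ 2 * (m1 ^ 2 + m2 ^ 2 + psi v * (k1 + k2))) := by gcongr
    have h2 : ε * (C1 ^ 2 + C2) * ‖b‖ ^ 2 ≤ 1 * ‖b‖ ^ 2 := by gcongr
    nlinarith
  linarith

lemma levi_zero_nonneg (z v a b : ℂ) : 0 ≤ levi (FF 0) (z, v) (a, b) := by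
  have h := levi_FF 0 z v a b
  rw [zero_mul, add_zero] at h
  have : 0 ≤ 4 * ‖b‖ ^ 2 := by positivity
  linarith

lemma levi_congr {u w : ℂ × ℂ → ℝ} {p : ℂ × ℂ} (h : u =ᶠ[𝓝 p] w) (ξ : ℂ × ℂ) :
    levi u p ξ = levi w p ξ := by
  unfold levi
  have key : ∀ η : ℂ × ℂ, deriv (deriv (fun t : ℝ => u (p + (t : ℂ) • η))) 0 =
      deriv (deriv (fun t : ℝ => w (p + (t : ℂ) • η))) 0 := by
    intro η
    have hc : Tendsto (fun t : ℝ => p + (t : ℂ) • η) (𝓝 0) (𝓝 p) := by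
      have h1 : Continuous (fun t : ℝ => p + (t : ℂ) • η) := by fun_prop
      simpa using h1.tendsto 0
    have h1 : (fun t : ℝ => u (p + (t : ℂ) • η)) =ᶠ[𝓝 0] fun t : ℝ => w (p + (t : ℂ) • η) :=
      hc.eventually h
    exact h1.deriv.deriv_eq
  rw [key, key]

end Q72.Nuc
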