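import Mathlib
import Pool.Agent.Q72.Nuc.Cut

/-!
# `KK` is 1-pseudoconcave
-/

set_option autoImplicit false

open Set Filter Topology Metric
open scoped Manifold ContDiff

namespace Q72.Nuc

open Pool.Agent.H194R3.Cartan

lemma ln_re {a : ℂ} {r s : ℝ} (ha : r ≤ a.re) (hr : r < 1) (hs0 : 0 ≤ s) (hs1 : s ≤ 1) :
    r ≤ (ln a s).re := by
  have : (ln a s).re = (1 - s) * a.re + s := by
    unfold ln
    simp
    ring
  rw [this]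
  nlinarith

/-- compactness of a closed condition over the closed discs -/
lemma compact_disc {a : ℂ} {s0 s1 : ℝ} {P : ℝ × ℂ → Prop} {U : Set (Cm 1)}
    (hU : ∀ s ∈ Icc s0 s1, ∀ b', ‖ln a s‖ ^ 2 + ‖b'‖ ^ 2 ≤ 1 → pt (ln a s) b' ∈ U)
    {Z : Type*} [TopologicalSpace Z] {F : Cm 1 → Z} (hF : ContinuousOn F U) {C : Set Z}
    (hC : IsClosed C) :
    IsCompact {p : ℝ × ℂ | p.1 ∈ Icc s0 s1 ∧ ‖ln a p.1‖ ^ 2 + ‖p.2‖ ^ 2 ≤ 1 ∧
      F (pt (ln a p.1) p.2) ∈ C} := by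
  have hc1 : Continuous (fun p : ℝ × ℂ => pt (ln a p.1) p.2) :=
    continuous_pt.comp (((continuous_ln a).comp continuous_fst).prodMk continuous_snd)
  have hc2 : Continuous (fun p : ℝ × ℂ => ‖ln a p.1‖ ^ 2 + ‖p.2‖ ^ 2) := by
    have := (continuous_ln a).comp (continuous_fst (X := ℝ) (Y := ℂ))
    exact (this.norm.pow 2).add (continuous_snd.norm.pow 2)
  have hS : IsCompact {p : ℝ × ℂ | p.1 ∈ Icc s0 s1 ∧ ‖ln a p.1‖ ^ 2 + ‖p.2‖ ^ 2 ≤ 1} := by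
    apply Metric.isCompact_of_isClosed_isBounded
    · exact (isClosed_Icc.preimage continuous_fst).inter (isClosed_le hc2 continuous_const)
    · apply ((isBounded_Icc s0 s1).prod (isBounded_closedBall (x := (0 : ℂ)) (r := 1))).subset
      intro p hp
      refine ⟨hp.1, ?_⟩
      rw [mem_closedBall_zero_iff]
      have h1 := hp.2
      change ‖ln a p.1‖ ^ 2 + ‖p.2‖ ^ 2 ≤ 1 at h1
      nlinarith [norm_nonneg p.2, sq_nonneg ‖ln a p.1‖]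
  have hcF : ContinuousOn (fun p : ℝ × ℂ => F (pt (ln a p.1) p.2))
      {p : ℝ × ℂ | p.1 ∈ Icc s0 s1 ∧ ‖ln a p.1‖ ^ 2 + ‖p.2‖ ^ 2 ≤ 1} :=
    hF.comp hc1.continuousOn (fun p hp => hU p.1 hp.1 p.2 hp.2)
  have h1 := hcF.preimage_isClosed_of_isClosed hS.isClosed hC
  have h2 : {p : ℝ × ℂ | p.1 ∈ Icc s0 s1 ∧ ‖ln a p.1‖ ^ 2 + ‖p.2‖ ^ 2 ≤ 1 ∧
      F (pt (ln a p.1) p.2) ∈ C} = {p : ℝ × ℂ | p.1 ∈ Icc s0 s1 ∧
      ‖ln a p.1‖ ^ 2 + ‖p.2‖ ^ 2 ≤ 1} ∩ (fun p : ℝ × ℂ => F (pt (ln a p.1) p.2)) ⁻¹' C := by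
    ext p
    constructor
    · rintro ⟨h1, h2, h3⟩; exact ⟨⟨h1, h2⟩, h3⟩
    · rintro ⟨⟨h1, h2⟩, h3⟩; exact ⟨h1, h2, h3⟩
  rw [h2]
  exact hS.of_isClosed_subset h1 inter_subset_left

/-- **`KK` is 1-pseudoconcave.** -/
theorem no_cut {r : ℝ} (hr0 : 0 < r) (hr1 : r < 1) {U : Set (Cm 1)} {Φ : Cm 1 → MM}
    (h : IsHatMap (V := ℂ × ℂ) 1 r U Φ) (hcap : ∀ q ∈ cap 1 r, Φ q ∉ KK) :
    ∀ q ∈ hat 1 r, Φ q ∉ KK := by
  intro q hq hqK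
  obtain ⟨a, ha⟩ : ∃ a, a = q 0 := ⟨_, rfl⟩
  obtain ⟨b, hb⟩ : ∃ b, b = q 1 := ⟨_, rfl⟩
  have hqe : q = pt a b := by rw [ha, hb]; exact eq_pt q
  have har : r ≤ a.re := by rw [ha]; exact hq.2
  have hab : ‖a‖ ^ 2 + ‖b‖ ^ 2 ≤ 1 := by
    rw [← norm_pt_le_one, ← hqe]; exact hq.1
  -- membership
  have hhat : ∀ s ∈ Icc (0 : ℝ) 1, ∀ b', ‖ln a s‖ ^ 2 + ‖b'‖ ^ 2 ≤ 1 →
      pt (ln a s) b' ∈ hat 1 r := by
    intro s hs b' hb'
    exact ⟨norm_pt_le_one.2 hb', ln_re har hr1 hs.1 hs.2⟩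
  have hcapm : ∀ s ∈ Icc (0 : ℝ) 1, ∀ b', ‖ln a s‖ ^ 2 + ‖b'‖ ^ 2 = 1 →
      Φ (pt (ln a s) b') ∉ KK := by
    intro s hs b' hb'
    exact hcap _ ⟨norm_pt_eq_one.2 hb', ln_re har hr1 hs.1 hs.2⟩
  have hΦc : ContinuousOn Φ U := h.2.2.2.continuousOn
  have hUhat : ∀ s ∈ Icc (0 : ℝ) 1, ∀ b', ‖ln a s‖ ^ 2 + ‖b'‖ ^ 2 ≤ 1 →
      pt (ln a s) b' ∈ U := fun s hs b' hb' => h.2.1 (hhat s hs b' hb')
  -- the last parameter
  have hT := compact_disc (P := fun _ => True) hUhat hΦc isClosed_KK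
  have hTi := hT.image continuous_fst
  have h0T : (0 : ℝ) ∈ Prod.fst '' {p : ℝ × ℂ | p.1 ∈ Icc (0 : ℝ) 1 ∧
      ‖ln a p.1‖ ^ 2 + ‖p.2‖ ^ 2 ≤ 1 ∧ Φ (pt (ln a p.1) p.2) ∈ KK} := by
    refine ⟨(0, b), ⟨⟨le_rfl, zero_le_one⟩, ?_, ?_⟩, rfl⟩
    · have : ln a 0 = a := by simp [ln]
      change ‖ln a 0‖ ^ 2 + ‖b‖ ^ 2 ≤ 1
      rw [this]; exact hab
    · have : ln a 0 = a := by simp [ln]
      change Φ (pt (ln a 0) b) ∈ KK
      rw [this, ← hqe]; exact hqK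
  obtain ⟨s0, hs0, hmax⟩ := hTi.exists_isMaxOn ⟨0, h0T⟩ continuousOn_id
  obtain ⟨⟨s, b0⟩, ⟨hsI, hb0, hK0⟩, hss⟩ := hs0
  have hss' : s = s0 := hss
  subst hss'
  change s ∈ Icc (0 : ℝ) 1 at hsI
  change ‖ln a s‖ ^ 2 + ‖b0‖ ^ 2 ≤ 1 at hb0
  change Φ (pt (ln a s) b0) ∈ KK at hK0
  have hafter : ∀ s', s < s' → s' ≤ 1 → ∀ b', ‖ln a s'‖ ^ 2 + ‖b'‖ ^ 2 ≤ 1 →
      Φ (pt (ln a s') b') ∉ KK := by
    intro s' h1 h2 b' hb' hK
    have h3 : s' ∈ Prod.fst '' {p : ℝ × ℂ | p.1 ∈ Icc (0 : ℝ) 1 ∧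
      ‖ln a p.1‖ ^ 2 + ‖p.2‖ ^ 2 ≤ 1 ∧ Φ (pt (ln a p.1) p.2) ∈ KK} :=
      ⟨(s', b'), ⟨⟨hsI.1.trans h1.le, h2⟩, hb', hK⟩, rfl⟩
    have h4 : s' ≤ s := hmax h3
    linarith
  have hb0' : ‖ln a s‖ ^ 2 + ‖b0‖ ^ 2 < 1 := by
    rcases lt_or_eq_of_le hb0 with h1 | h1
    · exact h1
    · exact absurd hK0 (hcapm s hsI b0 h1)
  have hs1 : s < 1 := by
    rcases lt_or_eq_of_le hsI.2 with h1 | h1
    · exact h1
    · exfalso
      have : ln a s = 1 := by rw [h1]; simp [ln]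
      rw [this, norm_one] at hb0'
      nlinarith [sq_nonneg ‖b0‖]
  have hvc : ContinuousOn (fun q => pv (Φ q)) U := continuous_pv.comp_continuousOn hΦc
  have hpc : ∀ b', Continuous (fun s' : ℝ => pt (ln a s') b') := fun b' =>
    continuous_pt.comp ((continuous_ln a).prodMk continuous_const)
  -- step 1: `|v| ≠ 1` on the disc
  have hstep1 : ∀ b', ‖ln a s‖ ^ 2 + ‖b'‖ ^ 2 ≤ 1 → ‖pv (Φ (pt (ln a s) b'))‖ ≠ 1 := by
    intro b1 hb1 hv1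
    have hb1' : ‖ln a s‖ ^ 2 + ‖b1‖ ^ 2 < 1 := by
      rcases lt_or_eq_of_le hb1 with h1 | h1
      · exact h1
      · exact absurd (Or.inl hv1) (hcapm s hsI b1 h1)
    obtain ⟨c, hc⟩ : ∃ c, c = pv (Φ (pt (ln a s) b1)) := ⟨_, rfl⟩
    have hc1 : ‖c‖ = 1 := by rw [hc]; exact hv1
    have hO : IsOpen (U ∩ {q | pv (Φ q) ≠ c}) := hvc.isOpen_inter_preimage h.1 isOpen_ne
    have hH : DifferentiableOn ℂ (fun q => (pv (Φ q) - c)⁻¹) (U ∩ {q | pv (Φ q) ≠ c}) := by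
      rintro q ⟨hq1, hq2⟩
      exact (((diff_v h hq1).sub_const c).inv (sub_ne_zero.2 hq2)).differentiableWithinAt
    have hnot : ∀ q, Φ q ∉ KK → pv (Φ q) ≠ c := by
      intro q hq1 hq2
      exact hq1 (Or.inl (by rw [hq2, hc1]))
    obtain ⟨Y, hY⟩ := bounded_of_boundary hO hH hs1 hb1'
      (fun b' hb' => ⟨hUhat s hsI b' hb'.le, hnot _ (hcapm s hsI b' hb')⟩)
      (fun s' h1 h2 b' hb' => ⟨hUhat s' ⟨hsI.1.trans h1.le, h2⟩ b' hb',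
        hnot _ (hafter s' h1 h2 b' hb')⟩)
    have hlim : Tendsto (fun s' : ℝ => Y * ‖pv (Φ (pt (ln a s') b1)) - c‖) (𝓝[>] s)
        (𝓝 (Y * ‖pv (Φ (pt (ln a s) b1)) - c‖)) := by
      have h1 : ContinuousAt (fun q => pv (Φ q)) (pt (ln a s) b1) :=
        hvc.continuousAt (h.1.mem_nhds (hUhat s hsI b1 hb1))
      have h2 : ContinuousAt (fun s' : ℝ => pv (Φ (pt (ln a s') b1))) s :=
        ContinuousAt.comp (f := fun s' : ℝ => pt (ln a s') b1) h1 (hpc b1).continuousAt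
      exact (continuousAt_const.mul ((h2.sub continuousAt_const).norm)).tendsto.mono_left
        nhdsWithin_le_nhds
    rw [← hc, sub_self, norm_zero, mul_zero] at hlim
    have hev : ∀ᶠ s' : ℝ in 𝓝[>] s, 1 ≤ Y * ‖pv (Φ (pt (ln a s') b1)) - c‖ := by
      have hev2 : ∀ᶠ s' : ℝ in 𝓝 s, ‖ln a s'‖ ^ 2 + ‖b1‖ ^ 2 < 1 := by
        have hcc : Continuous (fun s => ‖ln a s‖ ^ 2 + ‖b1‖ ^ 2) :=
          ((continuous_ln a).norm.pow 2).add continuous_const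
        exact hcc.continuousAt.eventually (gt_mem_nhds hb1')
      filter_upwards [hY, self_mem_nhdsWithin, nhdsWithin_le_nhds (gt_mem_nhds hs1),
        nhdsWithin_le_nhds hev2] with s' h1 h2 h3 h4
      have h5 : pv (Φ (pt (ln a s') b1)) - c ≠ 0 :=
        sub_ne_zero.2 (hnot _ (hafter s' h2 h3.le b1 h4.le))
      have h6 : 0 < ‖pv (Φ (pt (ln a s') b1)) - c‖ := norm_pos_iff.2 h5
      rw [norm_inv, inv_le_iff_one_le_mul₀ h6] at h1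
      exact h1
    have := ge_of_tendsto hlim hev
    linarith
  -- step 2
  have hx0 : px (Φ (pt (ln a s) b0)) = P1.coe 0 ∧ ‖pv (Φ (pt (ln a s) b0))‖ < 1 := by
    rcases hK0 with h1 | ⟨h1, h2⟩
    · exact absurd h1 (hstep1 b0 hb0)
    · exact ⟨h1, lt_of_le_of_ne h2 (hstep1 b0 hb0)⟩
  have hvlt : ∀ b', ‖ln a s‖ ^ 2 + ‖b'‖ ^ 2 ≤ 1 → ‖pv (Φ (pt (ln a s) b'))‖ < 1 := by
    intro b' hb'
    by_contra hc
    rw [not_lt] at hc
    obtain ⟨S, hS⟩ : ∃ S : Set ℂ, S = closedBall 0 √(1 - ‖ln a s‖ ^ 2) := ⟨_, rfl⟩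
    have hSm : ∀ b'', ‖ln a s‖ ^ 2 + ‖b''‖ ^ 2 ≤ 1 ↔ b'' ∈ S := by
      intro b''
      rw [hS, mem_closedBall_zero_iff, Real.le_sqrt (norm_nonneg _)
        (by nlinarith [sq_nonneg ‖b0‖])]
      constructor <;> intro h1 <;> linarith
    have hpre : IsPreconnected S := by rw [hS]; exact (convex_closedBall _ _).isPreconnected
    have hcont : ContinuousOn (fun b'' => ‖pv (Φ (pt (ln a s) b''))‖) S := by
      apply ContinuousOn.norm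
      exact hvc.comp (differentiable_pt _).continuous.continuousOn
        (fun b'' hb'' => hUhat s hsI b'' ((hSm b'').2 hb''))
    have himg := hpre.intermediate_value ((hSm b0).1 hb0) ((hSm b').1 hb') hcont
    obtain ⟨b'', hb'', h1⟩ := himg ⟨hx0.2.le, hc⟩
    exact hstep1 b'' ((hSm b'').2 hb'') h1
  -- for nearby parameters `|v| < 1`
  have hbad := compact_disc (P := fun _ => True) (s0 := s) (s1 := 1) (fun s' hs' b' hb' =>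
    hUhat s' ⟨hsI.1.trans hs'.1, hs'.2⟩ b' hb') hvc.norm (isClosed_Ici (a := (1 : ℝ)))
  have hbadi := (hbad.image continuous_fst).isClosed
  have hsnot : s ∉ Prod.fst '' {p : ℝ × ℂ | p.1 ∈ Icc s 1 ∧ ‖ln a p.1‖ ^ 2 + ‖p.2‖ ^ 2 ≤ 1 ∧
      ‖pv (Φ (pt (ln a p.1) p.2))‖ ∈ Ici (1 : ℝ)} := by
    rintro ⟨⟨s', b'⟩, ⟨_, hp2, hp3⟩, hp⟩
    have hp' : s' = s := hp
    subst hp'
    exact absurd (hvlt b' hp2) (not_lt.2 hp3)
  obtain ⟨δ, hδ, hball⟩ := Metric.isOpen_iff.1 hbadi.isOpen_compl s hsnot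
  obtain ⟨s1, hs1a, hs1b⟩ : ∃ s1, s < s1 ∧ s1 < min 1 (s + δ) := exists_between
    (lt_min hs1 (by linarith))
  rw [lt_min_iff] at hs1b
  have hvlt' : ∀ s', s < s' → s' ≤ s1 → ∀ b', ‖ln a s'‖ ^ 2 + ‖b'‖ ^ 2 ≤ 1 →
      ‖pv (Φ (pt (ln a s') b'))‖ < 1 := by
    intro s' h1 h2 b' hb'
    by_contra hc
    rw [not_lt] at hc
    have h3 : s' ∈ ball s δ := by
      rw [mem_ball, Real.dist_eq, abs_lt]
      constructor <;> linarith [hs1b.2]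
    exact hball h3 ⟨(s', b'), ⟨⟨h1.le, by linarith [hs1b.1]⟩, hb', hc⟩, rfl⟩
  have hxc : ContinuousOn (fun q => px (Φ q)) U := continuous_px.comp_continuousOn hΦc
  have hO : IsOpen (U ∩ {q | px (Φ q) ≠ P1.coe 0}) := hxc.isOpen_inter_preimage h.1 isOpen_ne
  have hH : DifferentiableOn ℂ (fun q => P1.chartInf (px (Φ q)))
      (U ∩ {q | px (Φ q) ≠ P1.coe 0}) := by
    rintro q ⟨hq1, hq2⟩
    exact (diff_x h hq1 hq2).differentiableWithinAt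
  have hnot : ∀ q, Φ q ∉ KK → ‖pv (Φ q)‖ < 1 → px (Φ q) ≠ P1.coe 0 := by
    intro q hq1 hq2 hq3
    exact hq1 (Or.inr ⟨hq3, hq2.le⟩)
  obtain ⟨Y, hY⟩ := bounded_of_boundary hO hH hs1a hb0'
    (fun b' hb' => ⟨hUhat s hsI b' hb'.le, hnot _ (hcapm s hsI b' hb') (hvlt b' hb'.le)⟩)
    (fun s' h1 h2 b' hb' => ⟨hUhat s' ⟨hsI.1.trans h1.le, by linarith [hs1b.1]⟩ b' hb',
      hnot _ (hafter s' h1 (by linarith [hs1b.1]) b' hb') (hvlt' s' h1 h2 b' hb')⟩)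
  -- the closed set of points with `|1/x| ≤ Y`
  have hCY : IsClosed (P1.inversion ⁻¹' (P1.coe '' closedBall 0 Y)) := by
    apply IsClosed.preimage P1.continuous_inversion
    exact ((isCompact_closedBall 0 Y).image P1.isOpenEmbedding_coe.continuous).isClosed
  have hlim : Tendsto (fun s' : ℝ => px (Φ (pt (ln a s') b0))) (𝓝[>] s)
      (𝓝 (px (Φ (pt (ln a s) b0)))) := by
    have h1 : ContinuousAt (fun q => px (Φ q)) (pt (ln a s) b0) :=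
      hxc.continuousAt (h.1.mem_nhds (hUhat s hsI b0 hb0))
    have h2 : ContinuousAt (fun s' : ℝ => px (Φ (pt (ln a s') b0))) s :=
      ContinuousAt.comp (f := fun s' : ℝ => pt (ln a s') b0) h1 (hpc b0).continuousAt
    exact h2.tendsto.mono_left nhdsWithin_le_nhds
  have hmem : px (Φ (pt (ln a s) b0)) ∈ P1.inversion ⁻¹' (P1.coe '' closedBall 0 Y) := by
    apply hCY.mem_of_tendsto hlim
    have hev2 : ∀ᶠ s' : ℝ in 𝓝 s, ‖ln a s'‖ ^ 2 + ‖b0‖ ^ 2 < 1 := by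
      have hcc : Continuous (fun s => ‖ln a s‖ ^ 2 + ‖b0‖ ^ 2) :=
        ((continuous_ln a).norm.pow 2).add continuous_const
      exact hcc.continuousAt.eventually (gt_mem_nhds hb0')
    filter_upwards [hY, self_mem_nhdsWithin, nhdsWithin_le_nhds (gt_mem_nhds hs1a),
      nhdsWithin_le_nhds hev2] with s' h1 h2 h3 h4
    have h5 : px (Φ (pt (ln a s') b0)) ≠ P1.coe 0 :=
      hnot _ (hafter s' h2 (by linarith [hs1b.1, (show s' < s1 from h3)]) b0 h4.le)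
        (hvlt' s' h2 (le_of_lt h3) b0 h4.le)
    rcases P1.cases (P1.inversion (px (Φ (pt (ln a s') b0)))) with h6 | ⟨z, h6⟩
    · exfalso
      apply h5
      rw [← P1.inversion_inversion (px (Φ (pt (ln a s') b0))), h6, P1.inversion_inf]
    · rw [P1.chartInf_apply, h6, P1.chartZero_coe] at h1
      exact ⟨z, by simpa using h1, h6.symm⟩
  rw [hx0.1, mem_preimage, P1.inversion_zero] at hmem
  obtain ⟨z, _, hz⟩ := hmem
  exact P1.coe_ne_inf z hz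

end Q72.Nuc
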